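import Pool.Agent.Helper4.CI.Goals
import Pool.Agent.Helper94.Mono.CellSum

/-! M2: the cell of a simplex. -/

namespace Mono.CI.M2

open Finset Mono Mono.C94

variable {N k : ℕ}

theorem lift_cast (c : Option (Fin k)) (u : Fin N → ℤ) (i : Fin N) :
    lift c u (Fin.castAdd k i) = u i := Fin.append_left _ _ _

theorem lift_nat (c : Option (Fin k)) (u : Fin N → ℤ) (j : Fin k) :
    lift c u (Fin.natAdd N j) = ind c j := Fin.append_right _ _ _

theorem ind_none (j : Fin k) : ind (none : Option (Fin k)) j = 0 := by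
  simp [ind]

theorem ind_some (i j : Fin k) : ind (some i) j = if i = j then 1 else 0 := by
  simp [ind]

theorem ind_inj {c c' : Option (Fin k)} (h : ∀ j, ind c j = ind c' j) : c = c' := by
  cases c with
  | none =>
    cases c' with
    | none => rfl
    | some j =>
      have := h j
      rw [ind_none, ind_some, if_pos rfl] at this
      omega
  | some i =>
    have h1 := h i
    rw [ind_some, if_pos rfl] at h1
    cases c' with
    | none =>
      rw [ind_none] at h1
      omega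
    | some j =>
      rw [ind_some] at h1
      by_cases hij : j = i
      · rw [hij]
      · rw [if_neg hij] at h1
        omega

theorem dot_lift (q : Fin (N + k) → ℝ) (c : Option (Fin k)) (u : Fin N → ℤ) :
    q ⬝ᵥ toR (lift c u) = (fun i => q (Fin.castAdd k i)) ⬝ᵥ toR u +
      c.elim 0 (fun j => q (Fin.natAdd N j)) := by
  unfold dotProduct
  rw [Fin.sum_univ_add]
  congr 1
  · refine Finset.sum_congr rfl fun i _ => ?_
    rw [toR_apply, toR_apply, lift_cast]
  · cases c with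
    | none =>
      refine Finset.sum_eq_zero fun j _ => ?_
      rw [toR_apply, lift_nat, ind_none]
      simp
    | some i =>
      rw [Finset.sum_eq_single i]
      · rw [toR_apply, lift_nat, ind_some, if_pos rfl]
        simp
      · intro j _ hj
        rw [toR_apply, lift_nat, ind_some, if_neg (Ne.symm hj)]
        simp
      · intro h
        exact absurd (Finset.mem_univ i) h

theorem dot_zsmul {n : ℕ} (q : Fin n → ℝ) (L : ℕ) (u : Fin n → ℤ) :
    q ⬝ᵥ toR ((L : ℤ) • u) = L * (q ⬝ᵥ toR u) := by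
  unfold dotProduct
  rw [Finset.mul_sum]
  refine Finset.sum_congr rfl fun i _ => ?_
  rw [toR_apply, toR_apply, Pi.smul_apply, smul_eq_mul]
  push_cast
  ring

theorem mem_cay {φ : Option (Fin k) → Finset (Fin N → ℤ)} {C : Finset (Option (Fin k))}
    {v : Fin (N + k) → ℤ} : v ∈ cay φ C ↔ ∃ c ∈ C, ∃ t ∈ φ c, lift c t = v := by
  simp [cay]

theorem prK_lift (K : Finset (Fin N)) (c : Option (Fin k)) (t : Fin N → ℤ) :
    prK (Kh k K) (lift c t) = lift c (prK K t) := by
  funext x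
  refine Fin.addCases (fun i => ?_) (fun j => ?_) x
  · rw [lift_cast]
    unfold prK
    rw [lift_cast]
    have : Fin.castAdd k i ∈ Kh k K ↔ i ∈ K := by
      unfold Kh
      rw [Finset.mem_image]
      constructor
      · rintro ⟨i', hi', h⟩
        rwa [← Fin.castAdd_injective N k h]
      · intro h
        exact ⟨i, h, rfl⟩
    simp only [this]
  · rw [lift_nat]
    unfold prK
    rw [if_neg, lift_nat]
    unfold Kh
    rw [Finset.mem_image]
    rintro ⟨i, _, h⟩
    have := congrArg Fin.val h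
    simp at this
    omega

theorem mem_csC {φ : Option (Fin k) → Finset (Fin N → ℤ)} {i : Fin N} :
    i ∈ csC φ ↔ ∃ c, ∃ u ∈ φ c, u i ≠ 0 := by
  unfold csC
  simp

theorem dimC_mono {φ ψ : Option (Fin k) → Finset (Fin N → ℤ)} (h : ∀ c, φ c ⊆ ψ c) :
    dimC φ ≤ dimC ψ := by
  unfold dimC
  refine Submodule.finrank_mono (Submodule.span_mono ?_)
  rintro x ⟨c, u, hu, v, hv, rfl⟩
  exact ⟨c, u, h c hu, v, h c hv, rfl⟩

theorem dimC_lt {φ : Option (Fin k) → Finset (Fin N → ℤ)} {κ : Fin N → ℝ} {t₀ : Fin N → ℤ}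
    (ht₀ : t₀ ∈ φ none) (h₀ : κ ⬝ᵥ toR t₀ ≠ 0)
    (h : ∀ c, ∀ u ∈ φ c, ∀ v ∈ φ c, κ ⬝ᵥ toR u = κ ⬝ᵥ toR v) :
    dimC φ + 1 ≤ (csC φ).card := by
  classical
  let W : Submodule ℝ (Fin N → ℝ) :=
    { carrier := {x | ∀ i, i ∉ csC φ → x i = 0}
      zero_mem' := fun i _ => rfl
      add_mem' := fun hx hy i hi => by simp [hx i hi, hy i hi]
      smul_mem' := fun a x hx i hi => by simp [hx i hi] }
  have hWmem : ∀ c, ∀ v ∈ φ c, toR v ∈ W := by
    intro c v hv i hi
    have : v i = 0 := by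
      by_contra hvi
      exact hi (mem_csC.2 ⟨c, v, hv, hvi⟩)
    simp [this]
  have hker : ∀ x ∈ Submodule.span ℝ
      {x : Fin N → ℝ | ∃ c, ∃ u ∈ φ c, ∃ v ∈ φ c, x = toR u - toR v}, κ ⬝ᵥ x = 0 := by
    intro x hx
    induction hx using Submodule.span_induction with
    | mem x hx =>
      obtain ⟨c, u, hu, v, hv, rfl⟩ := hx
      rw [dotProduct_sub, h c u hu v hv, sub_self]
    | zero => simp
    | add x y _ _ hx hy => rw [dotProduct_add, hx, hy, add_zero]
    | smul a x _ hx => rw [dotProduct_smul, hx, smul_zero]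
  have hlt : Submodule.span ℝ
      {x : Fin N → ℝ | ∃ c, ∃ u ∈ φ c, ∃ v ∈ φ c, x = toR u - toR v} < W := by
    refine lt_of_le_of_ne ?_ ?_
    · rw [Submodule.span_le]
      rintro _ ⟨c, u, hu, v, hv, rfl⟩
      exact W.sub_mem (hWmem c u hu) (hWmem c v hv)
    · intro heq
      exact h₀ (hker _ (by rw [heq]; exact hWmem none t₀ ht₀))
  have h1 := Submodule.finrank_lt_finrank_of_lt hlt
  have h2 : Module.finrank ℝ W ≤ (csC φ).card := by
    let r : W →ₗ[ℝ] (csC φ → ℝ) :=
      { toFun := fun x i => x.1 i.1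
        map_add' := fun x y => rfl
        map_smul' := fun a x => rfl }
    have hr : Function.Injective r := by
      intro x y hxy
      apply Subtype.ext
      funext i
      by_cases hi : i ∈ csC φ
      · exact congrFun hxy ⟨i, hi⟩
      · rw [x.2 i hi, y.2 i hi]
    have := LinearMap.finrank_le_finrank_of_injective hr
    simpa using this
  unfold dimC
  omega


theorem castAdd_mem_Kh {K : Finset (Fin N)} {i : Fin N} : Fin.castAdd k i ∈ Kh k K ↔ i ∈ K := by
  unfold Kh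
  rw [Finset.mem_image]
  constructor
  · rintro ⟨i', hi', h⟩
    rwa [← Fin.castAdd_injective N k h]
  · intro h
    exact ⟨i, h, rfl⟩

theorem natAdd_notMem_Kh {K : Finset (Fin N)} {j : Fin k} : Fin.natAdd N j ∉ Kh k K := by
  unfold Kh
  rw [Finset.mem_image]
  rintro ⟨i, _, h⟩
  have := congrArg Fin.val h
  simp at this
  omega

theorem cols_projS (K : Finset (Fin N)) (R : Finset (Fin (N + k) → ℤ)) :
    cols (projS (Kh k K) R) = cols R := by
  unfold cols
  refine Finset.filter_congr fun c _ => ?_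
  constructor
  · rintro ⟨v, hv, hvc⟩
    obtain ⟨u, hu, rfl⟩ := mem_projS.1 hv
    refine ⟨u, hu, fun j => ?_⟩
    rw [← hvc j]
    unfold prK
    rw [if_neg natAdd_notMem_Kh]
  · rintro ⟨u, hu, huc⟩
    refine ⟨_, mem_projS.2 ⟨u, hu, rfl⟩, fun j => ?_⟩
    rw [← huc j]
    unfold prK
    rw [if_neg natAdd_notMem_Kh]

theorem coll_projS {K : Finset (Fin N)} {R : Finset (Fin (N + k) → ℤ)}
    {φ : Option (Fin k) → Finset (Fin N → ℤ)} (h : R ⊆ cay φ univ) (c : Option (Fin k)) :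
    coll (projS (Kh k K) R) c ⊆ prC K φ c := by
  intro w hw
  unfold coll at hw
  rw [Finset.mem_image] at hw
  obtain ⟨v, hv, rfl⟩ := hw
  rw [Finset.mem_filter] at hv
  obtain ⟨hv, hvc⟩ := hv
  obtain ⟨u, hu, rfl⟩ := mem_projS.1 hv
  obtain ⟨c', _, t, ht, rfl⟩ := mem_cay.1 (h hu)
  rw [prK_lift] at hvc
  have hcc : c' = c := ind_inj fun j => by rw [← hvc j, lift_nat]
  subst hcc
  rw [prK_lift]
  have : base (lift c' (prK K t)) = prK K t := by
    funext i
    exact lift_cast _ _ _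
  rw [this]
  exact mem_projS.2 ⟨t, ht, rfl⟩

open Classical in
/-- The counting part. -/
theorem count (hD : CardColl) {Z ρ : Finset (Fin (N + k) → ℤ)} {K : Finset (Fin N)}
    {φ : Option (Fin k) → Finset (Fin N → ℤ)} {κ : Fin N → ℝ} {t₀ : Fin N → ℤ}
    (hρ : Indep ρ) (hK : ρ ∩ Z = eK (Kh k K)) (hc : ρ.card = (cs ρ).card)
    (hsub : ρ \ Z ⊆ cay φ univ) (ht₀ : lift none t₀ ∈ ρ \ Z) (ht₀' : t₀ ∈ φ none)
    (hκK : ∀ i ∈ K, κ i = 0) (h₀ : κ ⬝ᵥ toR t₀ ≠ 0)
    (hκ : ∀ c, ∀ u ∈ φ c, ∀ v ∈ φ c, κ ⬝ᵥ toR u = κ ⬝ᵥ toR v)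
    (hsupp : ∀ c, ∀ u ∈ φ c, ∀ i, u i ≠ 0 → Fin.castAdd k i ∈ cs ρ) :
    (ρ \ Z).card = dimC (prC K φ) + (cols (ρ \ Z)).card ∧
    dimC (prC K φ) + 1 = (csC (prC K φ)).card := by
  set I : Finset (Fin N) := univ.filter (fun i => Fin.castAdd k i ∈ cs ρ) with hI
  set J : Finset (Fin k) := univ.filter (fun j => Fin.natAdd N j ∈ cs ρ) with hJ
  have hKI : K ⊆ I := by
    intro i hi
    rw [hI, Finset.mem_filter]
    refine ⟨Finset.mem_univ _, mem_cs94.2 ⟨Pi.single (Fin.castAdd k i) 1, ?_, by simp⟩⟩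
    have : (Pi.single (Fin.castAdd k i) 1 : Fin (N + k) → ℤ) ∈ ρ ∩ Z := by
      rw [hK, mem_eK]
      exact ⟨_, castAdd_mem_Kh.2 hi, rfl⟩
    exact (Finset.mem_inter.1 this).1
  have e1 := card_split hK
  have e1' : (Kh k K).card = K.card := by
    unfold Kh
    exact Finset.card_image_of_injective _ (Fin.castAdd_injective N k)
  have e2 : (cs ρ).card = I.card + J.card := by
    have h1 : cs ρ = I.image (Fin.castAdd k) ∪ J.image (Fin.natAdd N) := by
      ext x
      rw [Finset.mem_union, Finset.mem_image, Finset.mem_image]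
      constructor
      · refine Fin.addCases (fun i hi => ?_) (fun j hj => ?_) x
        · exact Or.inl ⟨i, by rw [hI, Finset.mem_filter]; exact ⟨Finset.mem_univ _, hi⟩, rfl⟩
        · exact Or.inr ⟨j, by rw [hJ, Finset.mem_filter]; exact ⟨Finset.mem_univ _, hj⟩, rfl⟩
      · rintro (⟨i, hi, rfl⟩ | ⟨j, hj, rfl⟩)
        · exact (Finset.mem_filter.1 hi).2
        · exact (Finset.mem_filter.1 hj).2
    rw [h1, Finset.card_union_of_disjoint, Finset.card_image_of_injective _
      (Fin.castAdd_injective N k), Finset.card_image_of_injective _ (Fin.natAdd_injective k N)]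
    rw [Finset.disjoint_left]
    intro x hx hx'
    obtain ⟨i, _, rfl⟩ := Finset.mem_image.1 hx
    obtain ⟨j, _, h⟩ := Finset.mem_image.1 hx'
    have := congrArg Fin.val h
    simp at this
    omega
  have e3 : (cols (ρ \ Z)).card = J.card + 1 := by
    have h1 : cols (ρ \ Z) = insert none (J.image some) := by
      ext c
      unfold cols
      rw [Finset.mem_filter, Finset.mem_insert, Finset.mem_image]
      constructor
      · rintro ⟨_, v, hv, hvc⟩
        cases c with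
        | none => exact Or.inl rfl
        | some j =>
          right
          refine ⟨j, ?_, rfl⟩
          rw [hJ, Finset.mem_filter]
          refine ⟨Finset.mem_univ _, mem_cs94.2 ⟨v, (Finset.mem_sdiff.1 hv).1, ?_⟩⟩
          rw [hvc j, ind_some, if_pos rfl]
          exact one_ne_zero
      · rintro (rfl | ⟨j, hj, rfl⟩)
        · exact ⟨Finset.mem_univ _, _, ht₀, fun j => lift_nat _ _ _⟩
        · refine ⟨Finset.mem_univ _, ?_⟩
          rw [hJ, Finset.mem_filter] at hj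
          obtain ⟨v, hv, hvj⟩ := mem_cs94.1 hj.2
          have hvZ : v ∉ Z := by
            intro hvZ
            have : v ∈ eK (Kh k K) := by
              rw [← hK]
              exact Finset.mem_inter.2 ⟨hv, hvZ⟩
            obtain ⟨i, hi, rfl⟩ := mem_eK.1 this
            have hne : Fin.natAdd N j ≠ i := by
              rintro rfl
              exact natAdd_notMem_Kh hi
            simp [hne] at hvj
          obtain ⟨c, _, t, _, rfl⟩ := mem_cay.1 (hsub (Finset.mem_sdiff.2 ⟨hv, hvZ⟩))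
          have hcj : c = some j := by
            cases c with
            | none =>
              rw [lift_nat, ind_none] at hvj
              exact absurd rfl hvj
            | some i =>
              rw [lift_nat, ind_some] at hvj
              by_cases hij : i = j
              · rw [hij]
              · rw [if_neg hij] at hvj
                exact absurd rfl hvj
          subst hcj
          exact ⟨_, Finset.mem_sdiff.2 ⟨hv, hvZ⟩, fun i => lift_nat _ _ _⟩
    rw [h1, Finset.card_insert_of_notMem, Finset.card_image_of_injective _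
      (Option.some_injective _)]
    simp
  have e4 : (ρ \ Z).card ≤ dimC (prC K φ) + (cols (ρ \ Z)).card := by
    have h1 := hD N k (projS (Kh k K) (ρ \ Z)) (indep_projS hρ hK) (by
      intro v hv
      obtain ⟨u, hu, rfl⟩ := mem_projS.1 hv
      obtain ⟨c, _, t, _, rfl⟩ := mem_cay.1 (hsub hu)
      exact ⟨c, prK K t, prK_lift K c t⟩)
    rw [card_projS hρ hK, cols_projS] at h1
    have h2 := dimC_mono (coll_projS (K := K) hsub)
    omega
  have e5 : (csC (prC K φ)).card + K.card ≤ I.card := by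
    have h1 : csC (prC K φ) ⊆ I \ K := by
      intro i hi
      obtain ⟨c, w, hw, hwi⟩ := mem_csC.1 hi
      obtain ⟨u, hu, rfl⟩ := mem_projS.1 hw
      have hiK : i ∉ K := by
        intro h
        simp [prK, h] at hwi
      have hui : u i ≠ 0 := by simpa [prK, hiK] using hwi
      rw [Finset.mem_sdiff, hI, Finset.mem_filter]
      exact ⟨⟨Finset.mem_univ _, hsupp c u hu i hui⟩, hiK⟩
    have h2 := Finset.card_le_card h1
    rw [Finset.card_sdiff_of_subset hKI] at h2
    have h3 := Finset.card_le_card hKI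
    omega
  have e6 : dimC (prC K φ) + 1 ≤ (csC (prC K φ)).card := by
    refine dimC_lt (κ := κ) (t₀ := prK K t₀) (mem_projS.2 ⟨t₀, ht₀', rfl⟩) ?_ ?_
    · rw [dot_prK hκK]
      exact h₀
    · intro c u hu v hv
      obtain ⟨u', hu', rfl⟩ := mem_projS.1 hu
      obtain ⟨v', hv', rfl⟩ := mem_projS.1 hv
      rw [dot_prK hκK, dot_prK hκK]
      exact hκ c u' hu' v' hv'
  omega


theorem mem_Hset_Z {A : Option (Fin k) → Finset (Fin N → ℤ)} {Z : Finset (Fin (N + k) → ℤ)}
    {u : Fin (N + k) → ℤ} (h : u ∈ Z) : u ∈ Hset A Z := Finset.mem_union_left _ h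

theorem mem_Hset_some {A : Option (Fin k) → Finset (Fin N → ℤ)} {Z : Finset (Fin (N + k) → ℤ)}
    {j : Fin k} {t : Fin N → ℤ} (h : t ∈ A (some j)) : lift (some j) t ∈ Hset A Z := by
  refine Finset.mem_union_right _ ?_
  rw [Finset.mem_biUnion]
  exact ⟨j, Finset.mem_univ _, Finset.mem_image_of_mem _ h⟩

theorem cellOf (hD : CardColl) (hS : ScaleRel) : CellOf := by
  classical
  intro N k A b L b' Z Φ' Φ hT K ρ hρ hK hH hc
  obtain ⟨_, _, _, s4, s5, s6, s7, _⟩ := hS N k A b L b' Z Φ' Φ hT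
  have hL : (0 : ℝ) < L := by
    have := hT.two_le
    have : 0 < L := by omega
    exact_mod_cast this
  have hρf := (Fan.mem_faces Φ).1 hρ
  have hρi : Indep ρ := Fan.IsFace.indep Φ hρf
  obtain ⟨F, hF, hρF⟩ := hρf
  have hF' := s7 F hF
  obtain ⟨q, l, c1, c2, c3, c4⟩ := hT.bfan _ hF'
  have hFi : Indep F := Φ.mx_indep F hF
  have hFv := Φ.mx_sub F hF
  set qx : Fin N → ℝ := fun i => q (Fin.castAdd k i) with hqx
  set lx : Fin N → ℝ := fun i => l (Fin.castAdd k i) with hlx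
  have hqnn : ∀ i, 0 ≤ q i := by
    intro i
    by_cases h : (Pi.single i 1 : Fin (N + k) → ℤ) ∈ F.image (up L (Hset A Z)) ∩ Z
    · rw [(c2 i h).1]
    · rcases c3 i h with h | h
      · exact h.le
      · rw [h.1]
  -- elements of `ρ` outside `Z`
  have hcay : ∀ c, ∀ t ∈ A c, lift c t ∈ cay A univ := fun c t ht =>
    mem_cay.2 ⟨c, Finset.mem_univ _, t, ht, rfl⟩
  have hnotZ : ∀ c, ∀ t ∈ A c, lift c t ∉ Z := fun c t ht h =>
    Finset.disjoint_left.1 s5 (hcay c t ht) h
  have hel : ∀ u ∈ ρ \ Z, ∃ c, ∃ t ∈ A c, lift c t = u := by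
    intro u hu
    obtain ⟨h1, h2⟩ := Finset.mem_sdiff.1 hu
    have h3 := hFv (hρF h1)
    rw [hT.vert, Finset.mem_union] at h3
    obtain ⟨c, _, t, ht, h4⟩ := mem_cay.1 (h3.resolve_right h2)
    exact ⟨c, t, ht, h4⟩
  have hval : ∀ u ∈ F, u ∉ Z → q ⬝ᵥ toR (up L (Hset A Z) u) = 1 ∧
      l ⬝ᵥ toR (up L (Hset A Z) u) = 0 := by
    intro u hu hZ
    refine c1 _ (Finset.mem_sdiff.2 ⟨Finset.mem_image_of_mem _ hu, ?_⟩)
    rw [s4 u (hFv hu)]
    exact hZ
  have hvn : ∀ t ∈ A none, lift none t ∈ F → L * (qx ⬝ᵥ toR t) = 1 ∧ lx ⬝ᵥ toR t = 0 := by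
    intro t ht htF
    obtain ⟨h1, h2⟩ := hval _ htF (hnotZ none t ht)
    have h3 : lift none t ∉ Hset A Z := by
      rw [s6 _ (hcay none t ht)]
      intro j
      rw [lift_nat, ind_none]
    unfold up at h1 h2
    rw [if_neg h3, dot_zsmul, dot_lift] at h1 h2
    simp only [Option.elim_none, add_zero] at h1 h2
    exact ⟨h1, (mul_eq_zero.1 h2).resolve_left hL.ne'⟩
  have hvs : ∀ j, ∀ t ∈ A (some j), lift (some j) t ∈ F →
      qx ⬝ᵥ toR t + q (Fin.natAdd N j) = 1 ∧ lx ⬝ᵥ toR t + l (Fin.natAdd N j) = 0 := by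
    intro j t ht htF
    obtain ⟨h1, h2⟩ := hval _ htF (hnotZ _ t ht)
    unfold up at h1 h2
    rw [if_pos (mem_Hset_some ht), dot_lift] at h1 h2
    exact ⟨h1, h2⟩
  have h4n : ∀ v ∈ A none, 1 < L * (qx ⬝ᵥ toR v) ∨
      (L * (qx ⬝ᵥ toR v) = 1 ∧ 0 ≤ lx ⬝ᵥ toR v) := by
    intro v hv
    have h1 := c4 (lift none ((L : ℤ) • v)) (by
      unfold scay
      exact Finset.mem_union_left _ (Finset.mem_image_of_mem _ hv))
    rw [dot_lift, dot_lift, dot_zsmul, dot_zsmul] at h1
    simp only [Option.elim_none, add_zero] at h1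
    rcases h1 with h1 | ⟨h1, h2⟩
    · exact Or.inl h1
    · exact Or.inr ⟨h1, nonneg_of_mul_nonneg_right h2 hL⟩
  have h4s : ∀ j, ∀ v ∈ A (some j), 1 < qx ⬝ᵥ toR v + q (Fin.natAdd N j) ∨
      (qx ⬝ᵥ toR v + q (Fin.natAdd N j) = 1 ∧ 0 ≤ lx ⬝ᵥ toR v + l (Fin.natAdd N j)) := by
    intro j v hv
    have h1 := c4 (lift (some j) v) (by
      unfold scay
      refine Finset.mem_union_right _ ?_
      rw [Finset.mem_biUnion]
      exact ⟨j, Finset.mem_univ _, Finset.mem_image_of_mem _ hv⟩)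
    rw [dot_lift, dot_lift] at h1
    exact h1
  -- the index set
  have hρsupp : ∀ c t, lift c t ∈ ρ → ∀ i, t i ≠ 0 → Fin.castAdd k i ∈ cs ρ := by
    intro c t h i hi
    exact mem_cs94.2 ⟨_, h, by rw [lift_cast]; exact hi⟩
  set big : ℝ := 2 + ∑ j, ∑ v ∈ A (some j), L * (qx ⬝ᵥ toR v) with hbig
  have hdotnn : ∀ c, ∀ v ∈ A c, 0 ≤ qx ⬝ᵥ toR v := by
    intro c v hv
    refine Finset.sum_nonneg fun i _ => mul_nonneg (hqnn _) ?_
    rw [toR_apply]
    exact_mod_cast hT.good.nonneg c v hv i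
  have hbig1 : ∀ j, ∀ v ∈ A (some j), L * (qx ⬝ᵥ toR v) + 2 ≤ big := by
    intro j v hv
    have h1 : L * (qx ⬝ᵥ toR v) ≤ ∑ v ∈ A (some j), L * (qx ⬝ᵥ toR v) :=
      Finset.single_le_sum (f := fun v => (L : ℝ) * (qx ⬝ᵥ toR v))
        (fun v hv => mul_nonneg hL.le (hdotnn _ v hv)) hv
    have h2 : ∑ v ∈ A (some j), L * (qx ⬝ᵥ toR v) ≤
        ∑ j, ∑ v ∈ A (some j), L * (qx ⬝ᵥ toR v) :=
      Finset.single_le_sum (f := fun j => ∑ v ∈ A (some j), (L : ℝ) * (qx ⬝ᵥ toR v))
        (fun j _ => Finset.sum_nonneg fun v hv => mul_nonneg hL.le (hdotnn _ v hv))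
        (Finset.mem_univ j)
    rw [hbig]
    linarith
  have hbig2 : 2 ≤ big := by
    have : 0 ≤ ∑ j, ∑ v ∈ A (some j), L * (qx ⬝ᵥ toR v) :=
      Finset.sum_nonneg fun j _ => Finset.sum_nonneg fun v hv =>
        mul_nonneg hL.le (hdotnn _ v hv)
    rw [hbig]
    linarith
  set e : Fin N → ℝ := fun i => if Fin.castAdd k i ∈ cs ρ then 0 else big with he
  have henn : ∀ v : Fin N → ℤ, (∀ i, 0 ≤ v i) → 0 ≤ e ⬝ᵥ toR v := by
    intro v hv
    refine Finset.sum_nonneg fun i _ => mul_nonneg ?_ ?_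
    · rw [he]
      dsimp only
      split_ifs
      · exact le_rfl
      · linarith
    · rw [toR_apply]
      exact_mod_cast hv i
  have he1 : ∀ v : Fin N → ℤ, (∀ i, 0 ≤ v i) →
      (∃ i, Fin.castAdd k i ∉ cs ρ ∧ v i ≠ 0) → big ≤ e ⬝ᵥ toR v := by
    rintro v hv ⟨i, hi, hvi⟩
    have h1 : e i * toR v i ≤ e ⬝ᵥ toR v := by
      refine Finset.single_le_sum (f := fun j => e j * toR v j) (fun j _ => mul_nonneg ?_ ?_)
        (Finset.mem_univ i)
      · rw [he]
        dsimp only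
        split_ifs
        · exact le_rfl
        · linarith
      · rw [toR_apply]
        exact_mod_cast hv j
    have h2 : (1 : ℝ) ≤ v i := by
      have : 0 ≤ v i := hv i
      have : 1 ≤ v i := by omega
      exact_mod_cast this
    have h3 : e i = big := by
      rw [he]
      dsimp only
      rw [if_neg hi]
    rw [h3, toR_apply] at h1
    nlinarith
  have he0 : ∀ v : Fin N → ℤ, (∀ i, v i ≠ 0 → Fin.castAdd k i ∈ cs ρ) → e ⬝ᵥ toR v = 0 := by
    intro v hv
    refine Finset.sum_eq_zero fun i _ => ?_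
    by_cases hi : Fin.castAdd k i ∈ cs ρ
    · rw [he]
      dsimp only
      rw [if_pos hi, zero_mul]
    · have : v i = 0 := by
        by_contra hvi
        exact hi (hv i hvi)
      rw [toR_apply, this]
      simp
  set κ : Fin N → ℝ := fun i => L * qx i + e i with hκ
  have hκdot : ∀ v : Fin N → ℤ, κ ⬝ᵥ toR v = L * (qx ⬝ᵥ toR v) + e ⬝ᵥ toR v := by
    intro v
    unfold dotProduct
    rw [Finset.mul_sum, ← Finset.sum_add_distrib]
    refine Finset.sum_congr rfl fun i _ => ?_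
    rw [hκ]
    ring
  -- `e_i`, `i ∈ cs ρ`, in `F' ∩ Z` belongs to `ρ`
  have hupZ : ∀ x, x ∈ F.image (up L (Hset A Z)) ∩ Z → x ∈ F := by
    intro x hx
    obtain ⟨h1, h2⟩ := Finset.mem_inter.1 hx
    obtain ⟨u, hu, rfl⟩ := Finset.mem_image.1 h1
    have h3 := (s4 u (hFv hu)).1 h2
    unfold up
    rw [if_pos (mem_Hset_Z h3)]
    exact hu
  have hnot : ∀ i, i ∉ K → Fin.castAdd k i ∈ cs ρ →
      (Pi.single (Fin.castAdd k i) 1 : Fin (N + k) → ℤ) ∉ F.image (up L (Hset A Z)) ∩ Z := by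
    intro i hi hics hmem
    have hiF := hupZ _ hmem
    have hiZ := (Finset.mem_inter.1 hmem).2
    by_cases hiρ : (Pi.single (Fin.castAdd k i) 1 : Fin (N + k) → ℤ) ∈ ρ
    · have : (Pi.single (Fin.castAdd k i) 1 : Fin (N + k) → ℤ) ∈ eK (Kh k K) := by
        rw [← hK]
        exact Finset.mem_inter.2 ⟨hiρ, hiZ⟩
      obtain ⟨j, hj, hji⟩ := mem_eK.1 this
      have := single_inj hji
      rw [this] at hj
      exact hi (castAdd_mem_Kh.1 hj)
    · have h1 : Indep (insert (Pi.single (Fin.castAdd k i) 1 : Fin (N + k) → ℤ) ρ) :=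
        hFi.subset (Finset.insert_subset hiF hρF)
      have h2 := h1.card_le (cs ρ) (by
        intro u hu j hj
        rcases Finset.mem_insert.1 hu with rfl | hu
        · have : j ≠ Fin.castAdd k i := fun h => hj (h ▸ hics)
          simp [this]
        · by_contra hne
          exact hj (mem_cs94.2 ⟨u, hu, hne⟩))
      rw [Finset.card_insert_of_notMem hiρ] at h2
      omega
  have hKcs : ∀ i ∈ K, (Pi.single (Fin.castAdd k i) 1 : Fin (N + k) → ℤ) ∈
      F.image (up L (Hset A Z)) ∩ Z ∧ Fin.castAdd k i ∈ cs ρ := by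
    intro i hi
    have h1 : (Pi.single (Fin.castAdd k i) 1 : Fin (N + k) → ℤ) ∈ ρ ∩ Z := by
      rw [hK, mem_eK]
      exact ⟨_, castAdd_mem_Kh.2 hi, rfl⟩
    obtain ⟨h2, h3⟩ := Finset.mem_inter.1 h1
    refine ⟨Finset.mem_inter.2 ⟨Finset.mem_image.2 ⟨_, hρF h2, ?_⟩, h3⟩,
      mem_cs94.2 ⟨_, h2, by simp⟩⟩
    unfold up
    rw [if_pos (mem_Hset_Z h3)]
  have hκK : ∀ i ∈ K, κ i = 0 := by
    intro i hi
    obtain ⟨h1, h2⟩ := hKcs i hi
    rw [hκ, he]
    dsimp only
    rw [if_pos h2, hqx]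
    dsimp only
    rw [(c2 _ h1).1, mul_zero, add_zero]
  -- a vertex of colour `none`
  obtain ⟨u₀, hu₀, hu₀H⟩ := Finset.not_subset.1 hH
  have hu₀Z : u₀ ∉ Z := fun h => hu₀H (mem_Hset_Z h)
  obtain ⟨c₀, t₀, ht₀, hct₀⟩ := hel u₀ (Finset.mem_sdiff.2 ⟨hu₀, hu₀Z⟩)
  have hc₀ : c₀ = none := by
    cases c₀ with
    | none => rfl
    | some j =>
      exfalso
      apply hu₀H
      rw [← hct₀]
      exact mem_Hset_some ht₀
  subst hc₀
  subst hct₀
  -- the cell
  set φ : Option (Fin k) → Finset (Fin N → ℤ) := fun c => match c with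
    | none => (A none).filter (fun v => κ ⬝ᵥ toR v = 1 ∧ lx ⬝ᵥ toR v = 0)
    | some j => (A (some j)).filter (fun v => ∀ w ∈ A (some j), κ ⬝ᵥ toR v < κ ⬝ᵥ toR w ∨
      (κ ⬝ᵥ toR v = κ ⬝ᵥ toR w ∧ lx ⬝ᵥ toR v ≤ lx ⬝ᵥ toR w)) with hφ
  have hφn : ∀ v, v ∈ φ none ↔ v ∈ A none ∧ κ ⬝ᵥ toR v = 1 ∧ lx ⬝ᵥ toR v = 0 := fun v =>
    Finset.mem_filter
  have hφs : ∀ j v, v ∈ φ (some j) ↔ v ∈ A (some j) ∧ ∀ w ∈ A (some j),
      κ ⬝ᵥ toR v < κ ⬝ᵥ toR w ∨ (κ ⬝ᵥ toR v = κ ⬝ᵥ toR w ∧ lx ⬝ᵥ toR v ≤ lx ⬝ᵥ toR w) :=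
    fun j v => Finset.mem_filter
  have hsubn : ∀ t ∈ A none, lift none t ∈ ρ → t ∈ φ none := by
    intro t ht htρ
    obtain ⟨h1, h2⟩ := hvn t ht (hρF htρ)
    rw [hφn]
    refine ⟨ht, ?_, h2⟩
    rw [hκdot, he0 t (hρsupp _ _ htρ), h1, add_zero]
  have hsubs : ∀ j, ∀ t ∈ A (some j), lift (some j) t ∈ ρ → t ∈ φ (some j) := by
    intro j t ht htρ
    obtain ⟨h1, h2⟩ := hvs j t ht (hρF htρ)
    rw [hφs]
    refine ⟨ht, fun w hw => ?_⟩
    rw [hκdot, hκdot, he0 t (hρsupp _ _ htρ), add_zero]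
    have h3 := henn w (hT.good.nonneg _ w hw)
    rcases h4s j w hw with h4 | ⟨h4, h5⟩
    · left
      have : qx ⬝ᵥ toR t < qx ⬝ᵥ toR w := by linarith
      have := mul_lt_mul_of_pos_left this hL
      linarith
    · have h6 : qx ⬝ᵥ toR t = qx ⬝ᵥ toR w := by linarith
      rw [h6]
      rcases h3.eq_or_lt with h7 | h7
      · right
        refine ⟨by rw [← h7, add_zero], by linarith⟩
      · left
        linarith
  have ht₀φ : t₀ ∈ φ none := hsubn t₀ ht₀ hu₀
  have hsupp : ∀ c, ∀ u ∈ φ c, ∀ i, u i ≠ 0 → Fin.castAdd k i ∈ cs ρ := by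
    intro c u hu i hi
    by_contra hics
    cases c with
    | none =>
      obtain ⟨h1, h2, _⟩ := (hφn u).1 hu
      have h3 := he1 u (hT.good.nonneg _ u h1) ⟨i, hics, hi⟩
      rw [hκdot] at h2
      have h4 := mul_nonneg hL.le (hdotnn _ u h1)
      linarith
    | some j =>
      obtain ⟨h1, h2⟩ := (hφs j u).1 hu
      obtain ⟨w, hw, hw'⟩ := hT.good.cond t₀ ht₀ j
      have h3 : ∀ i, w i ≠ 0 → Fin.castAdd k i ∈ cs ρ := by
        intro i hwi
        refine hρsupp none t₀ hu₀ i fun h => ?_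
        exact hwi (hw' i h)
      have h4 := he1 u (hT.good.nonneg _ u h1) ⟨i, hics, hi⟩
      have h5 := mul_nonneg hL.le (hdotnn _ u h1)
      have h6 := hbig1 j w hw
      have h7 : κ ⬝ᵥ toR w < κ ⬝ᵥ toR u := by
        rw [hκdot, hκdot, he0 w h3]
        linarith
      rcases h2 w hw with h8 | h8
      · linarith
      · linarith [h8.1]
  have hsub : ρ \ Z ⊆ cay φ univ := by
    intro u hu
    obtain ⟨c, t, ht, rfl⟩ := hel u hu
    refine mem_cay.2 ⟨c, Finset.mem_univ _, t, ?_, rfl⟩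
    have htρ := (Finset.mem_sdiff.1 hu).1
    cases c with
    | none => exact hsubn t ht htρ
    | some j => exact hsubs j t ht htρ
  refine ⟨φ, ?_, hsub, ?_⟩
  · unfold cellsC
    rw [Finset.mem_filter, Fintype.mem_piFinset]
    refine ⟨?_, κ, lx, ?_, ?_, ?_, ⟨t₀, ht₀φ⟩, ?_, ?_⟩
    · intro c
      rw [Finset.mem_powerset]
      cases c with
      | none => exact Finset.filter_subset _ _
      | some j => exact Finset.filter_subset _ _
    · intro i hi
      refine ⟨hκK i hi, ?_⟩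
      rw [← hT.ext i]
      exact (c2 _ (hKcs i hi).1).2
    · intro i hi
      by_cases hics : Fin.castAdd k i ∈ cs ρ
      · have h1 : κ i = L * qx i := by
          rw [hκ, he]
          dsimp only
          rw [if_pos hics, add_zero]
        rw [h1]
        rcases c3 _ (hnot i hi hics) with h2 | ⟨h2, h3⟩
        · exact Or.inl (mul_pos hL h2)
        · right
          refine ⟨?_, ?_⟩
          · rw [hqx]
            dsimp only
            rw [h2, mul_zero]
          · rw [← hT.ext i]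
            exact h3
      · left
        have h1 : κ i = L * qx i + big := by
          rw [hκ, he]
          dsimp only
          rw [if_neg hics]
        rw [h1]
        have := mul_nonneg hL.le (hqnn (Fin.castAdd k i))
        rw [hqx]
        dsimp only
        linarith
    · intro v hv
      rw [hκdot]
      have h3 := henn v (hT.good.nonneg _ v hv)
      by_cases hex : ∃ i, Fin.castAdd k i ∉ cs ρ ∧ v i ≠ 0
      · left
        have h4 := he1 v (hT.good.nonneg _ v hv) hex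
        have h5 := mul_nonneg hL.le (hdotnn _ v hv)
        linarith
      · rw [he0 v (fun i hi => by
          by_contra h
          exact hex ⟨i, h, hi⟩), add_zero]
        exact h4n v hv
    · ext v
      exact (hφn v).trans (Finset.mem_filter (s := A none)
        (p := fun v => κ ⬝ᵥ toR v = 1 ∧ lx ⬝ᵥ toR v = 0)).symm
    · intro j
      ext v
      exact (hφs j v).trans (Finset.mem_filter (s := A (some j))
        (p := fun v => ∀ w ∈ A (some j), κ ⬝ᵥ toR v < κ ⬝ᵥ toR w ∨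
          (κ ⬝ᵥ toR v = κ ⬝ᵥ toR w ∧ lx ⬝ᵥ toR v ≤ lx ⬝ᵥ toR w))).symm
  · have hκ1 : κ ⬝ᵥ toR t₀ = 1 := ((hφn t₀).1 ht₀φ).2.1
    refine count hD hρi hK hc hsub (Finset.mem_sdiff.2 ⟨hu₀, hu₀Z⟩) ht₀φ hκK
      (by rw [hκ1]; exact one_ne_zero) ?_ hsupp
    intro c u hu v hv
    cases c with
    | none => rw [((hφn u).1 hu).2.1, ((hφn v).1 hv).2.1]
    | some j =>
      obtain ⟨h1, h2⟩ := (hφs j u).1 hu
      obtain ⟨h3, h4⟩ := (hφs j v).1 hv
      rcases h2 v h3 with h5 | h5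
      · rcases h4 u h1 with h6 | h6
        · linarith
        · exact h6.1.symm
      · exact h5.1

end Mono.CI.M2
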